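import Pool.Agent.helper70.FI3.SpecN3
import Pool.Agent.helper66.FIB.QWT

/-!
Project fi3 (MP_baa4d7_al), block N3, row QWA3: the number of the pairs.
-/

set_option autoImplicit false

namespace Pool.Agent.FI3

open Pool.Agent.helper58.DC Pool.Agent.DI Pool.Agent.GR Pool.Agent.OB Pool.Agent.DR Pool.Agent.FI

theorem QWA3 (hQFU : QFU3_stmt) (hFEQ : FEQ_stmt) : QWA3_stmt := by
  intro p M hs G _ _ D x θ χ lo P hP y η hη m₀ hm₀ v₀ hv₀ hmv hSBm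
  have hθ0 : ∀ g, g ∉ cz D → θ g = 0 := lo.rt.th.1
  -- transport of `Cz`
  have hCzc : ∀ g : G, g ∈ cz P → ∀ v : G, cjS g (Cz (cz P) v) = Cz (cz P) (g * v * g⁻¹) := by
    intro g hg v
    have h := (hFEQ G M g 1 P P (cz P) θ θ θ).2.2.1 v
    rw [QWT_cjS_mem hg] at h
    exact h
  have hcj : ∀ g h : G, ∀ ψ : G → ℂ, cjF g (cjF h ψ) = cjF (g * h) ψ := fun g h ψ =>
    ((hFEQ G M g h P P P θ ψ θ).1).2.1
  have hcj1 : ∀ ψ : G → ℂ, cjF (1 : G) ψ = ψ := fun ψ => ((hFEQ G M 1 1 P P P θ ψ θ).1).2.2.2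
  have hSBc : ∀ g : G, ∀ L : Subgroup G, ∀ η ψ : G → ℂ, SB M L η ψ → SB M (cjS g L) (cjF g η) (cjF g ψ) :=
    fun g L η ψ h => ((hFEQ G M g 1 P P L η ψ θ).2.2.2.2.1).1 h
  obtain ⟨l₀, hl₀def⟩ : ∃ l₀ : G, l₀ = m₀⁻¹ := ⟨_, rfl⟩
  have hl₀ : l₀ ∈ cz P := by
    rw [hl₀def]
    exact (cz P).inv_mem hm₀
  obtain ⟨u₀, hu₀def⟩ : ∃ u₀ : G, u₀ = l₀ * y * l₀⁻¹ := ⟨_, rfl⟩
  have hvu : v₀ = u₀ := by
    rw [hu₀def, hl₀def, ← hmv]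
    group
  have hu₀ : u₀ ∈ D := hvu ▸ hv₀
  have hSB₀ : SB M (Cz (cz P) u₀) θ (cjF l₀ η) := by
    have h1 := hSBc l₀ _ _ _ hSBm
    rw [hCzc l₀ hl₀ y, ← hu₀def, hcj, hl₀def, inv_mul_cancel, hcj1] at h1
    rw [hl₀def]
    exact h1
  rw [hvu]
  have hy' : y = l₀⁻¹ * u₀ * l₀ := by
    rw [hu₀def]
    group
  have hK : Nat.card (Cz (cz P) y) = Nat.card (Cz (cz P) u₀) := by
    have h1 := hCzc l₀ hl₀ y
    rw [← hu₀def] at h1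
    rw [← h1]
    exact ((hFEQ G M l₀ 1 (Cz (cz P) y) P P θ θ θ).2.1).2.2.2.2.2.symm
  have hAB : Cz (cz P) u₀ ⊓ (TT M D θ ⊓ cz P) = Cz (TT M D θ ⊓ cz P) u₀ := by
    apply le_antisymm
    · rintro g ⟨hg1, hg2⟩
      exact QWT_Cz_mem.2 ⟨hg2, (QWT_Cz_mem.1 hg1).2⟩
    · intro g hg
      obtain ⟨hg1, hg2⟩ := QWT_Cz_mem.1 hg
      exact ⟨QWT_Cz_mem.2 ⟨hg1.2, hg2⟩, hg1⟩
  have hCB : Cz (TT M D θ ⊓ cz P) u₀ ≤ TT M D θ ⊓ cz P := fun g hg => (QWT_Cz_mem.1 hg).1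
  rw [hK]
  unfold wt
  refine QWT_count hAB hCB _ l₀ u₀ y ?_ ?_
  · rintro ⟨l, u⟩ ⟨hl, hu, hlu, hsb⟩
    change l ∈ cz P at hl
    change u ∈ D at hu
    change l * u * l⁻¹ = y at hlu
    change SB M (Cz (cz P) y) (cjF l θ) η at hsb
    refine ⟨hlu, ?_⟩
    have hk : l₀ * l ∈ cz P := (cz P).mul_mem hl₀ hl
    have hku : (l₀ * l) * u * (l₀ * l)⁻¹ = u₀ := by
      rw [hu₀def, ← hlu]
      group
    have hKu : cjS l⁻¹ (Cz (cz P) y) = Cz (cz P) u := by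
      rw [hCzc l⁻¹ ((cz P).inv_mem hl) y, ← hlu]
      congr 1
      group
    have hψ : cjF l⁻¹ η ∈ IrrOn (Cz (cz P) u) := by
      have h1 := ((hFEQ G M l⁻¹ 1 P P (Cz (cz P) y) θ η θ).2.2.2.1).1 hη
      rwa [hKu] at h1
    have hsb1 : SB M (Cz (cz P) u) θ (cjF l⁻¹ η) := by
      have h1 := hSBc l⁻¹ _ _ _ hsb
      rw [hKu, hcj, inv_mul_cancel, hcj1] at h1
      exact h1
    have hsb2 : SB M (Cz (cz P) ((l₀ * l) * u * (l₀ * l)⁻¹)) θ (cjF (l₀ * l) (cjF l⁻¹ η)) := by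
      rw [hku, hcj]
      have h1 : l₀ * l * l⁻¹ = l₀ := by group
      rw [h1]
      exact hSB₀
    obtain ⟨c', hc', ht⟩ := hQFU p M hs G D x θ χ lo P hP u hu (l₀ * l) hk (by rw [hku]; exact hu₀)
      (cjF l⁻¹ η) hψ hsb1 hsb2
    rw [hku] at hc'
    refine ⟨c'⁻¹, (Cz (cz P) u₀).inv_mem hc', c' * (l₀ * l), ⟨ht, (cz P).mul_mem
      (QWT_Cz_mem.1 hc').1 hk⟩, ?_⟩
    change l = _
    group
  · rintro c hc t ⟨ht, htL⟩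
    have hcL : c ∈ cz P := (QWT_Cz_mem.1 hc).1
    have hcu := (QWT_Cz_mem.1 hc).2
    have htn : t ∈ nz D := ht.1
    have hsbt : SB M (cz D) (cjF t θ) θ := ht.2
    have hlL : l₀⁻¹ * c * t ∈ cz P := (cz P).mul_mem ((cz P).mul_mem ((cz P).inv_mem hl₀) hcL) htL
    refine ⟨hlL, ?_, ?_, ?_⟩
    · change t⁻¹ * u₀ * t ∈ D
      have h1 := (Subgroup.mem_normalizer_iff.1 ((nz D).inv_mem htn) u₀).1 hu₀
      simpa using h1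
    · change l₀⁻¹ * c * t * (t⁻¹ * u₀ * t) * (l₀⁻¹ * c * t)⁻¹ = y
      have h1 : l₀⁻¹ * c * t * (t⁻¹ * u₀ * t) * (l₀⁻¹ * c * t)⁻¹ = l₀⁻¹ * (c * u₀) * c⁻¹ * l₀ := by group
      rw [h1, hcu, hy']
      group
    · change SB M (Cz (cz P) y) (cjF (l₀⁻¹ * c * t) θ) η
      have hz : ∀ g, g ∉ cz D → cjF t θ g = 0 := by
        intro g hg
        rw [cjF_apply]
        refine hθ0 _ fun h => hg ?_
        have h1 := cz_conj htn h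
        have h2 : t * (t⁻¹ * g * t) * t⁻¹ = g := by group
        rwa [h2] at h1
      have h1 : SB M (Cz (cz P) u₀) (cjF t θ) θ := Q1_mono (Q1_C_Cz hP hu₀) hz hθ0 hsbt
      have h2 : SB M (Cz (cz P) u₀) (cjF c (cjF t θ)) (cjF l₀ η) :=
        ((QWT_SB_cj hc _).trans h1).trans hSB₀
      have h3 := hSBc l₀⁻¹ _ _ _ h2
      rw [hCzc l₀⁻¹ ((cz P).inv_mem hl₀) u₀, hcj, hcj, hcj, inv_mul_cancel, hcj1] at h3
      have h4 : l₀⁻¹ * u₀ * l₀⁻¹⁻¹ = y := by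
        rw [inv_inv]
        exact hy'.symm
      rw [h4] at h3
      exact h3

end Pool.Agent.FI3
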